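import Pool.Agent.W770.KP.Stm

set_option autoImplicit false

/-! Project KP, CP: dimension count for polynomials vanishing on planes. -/

open scoped Classical

namespace Pool.Agent.W924.KP

open Pool.Agent.W770.KP MvPolynomial

theorem td_bind {F : Type} [Field F] {σ τ : Type} (f : σ → MvPolynomial τ F)
    (hf : ∀ i, (f i).totalDegree ≤ 1) (R : MvPolynomial σ F) :
    (bind₁ f R).totalDegree ≤ R.totalDegree := by
  have e : bind₁ f R = ∑ d ∈ R.support, C (R.coeff d) * ∏ i ∈ d.support, f i ^ d i := by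
    show aeval f R = _
    rw [aeval_def, eval₂_eq]
    rfl
  rw [e]
  refine totalDegree_finsetSum_le fun d hd => ?_
  refine (totalDegree_mul _ _).trans ?_
  rw [totalDegree_C, zero_add]
  refine (totalDegree_finsetProd _ _).trans ?_
  refine (Finset.sum_le_sum fun i _ => ?_).trans (le_totalDegree hd)
  refine (totalDegree_pow _ _).trans ?_
  calc d i * (f i).totalDegree ≤ d i * 1 := Nat.mul_le_mul_left _ (hf i)
    _ = d i := mul_one _

theorem eval_bind {F : Type} [Field F] {σ τ : Type} (f : σ → MvPolynomial τ F) (w : τ → F)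
    (R : MvPolynomial σ F) : eval w (bind₁ f R) = eval (fun i => eval w (f i)) R :=
  eval₂Hom_bind₁ _ _ _ _

/-- the exponents with slack -/
noncomputable def J (k E : ℕ) : Finset (Option (Fin k) →₀ ℕ) :=
  (Finset.univ : Finset (Option (Fin k))).finsuppAntidiag E

theorem J_card (k E : ℕ) : (J k E).card = (E + k).choose k := by
  unfold J
  rw [Finset.card_finsuppAntidiag_nat_eq_choose, Finset.card_univ, Fintype.card_option,
    Fintype.card_fin]
  have e : k + 1 + E - 1 = E + k := by omega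
  rw [e]
  exact (Nat.choose_symm_add).trans rfl

/-- the exponents without slack -/
noncomputable def ex {k : ℕ} (β : Option (Fin k) →₀ ℕ) : Fin k →₀ ℕ :=
  Finsupp.equivFunOnFinite.symm (fun i => β (some i))

theorem J_surj {k E : ℕ} (γ : Fin k →₀ ℕ) (h : ∑ i, γ i ≤ E) : ∃ β ∈ J k E, ex β = γ := by
  refine ⟨Finsupp.equivFunOnFinite.symm (fun o => o.elim (E - ∑ i, γ i) γ), ?_, ?_⟩
  · unfold J
    rw [Finset.mem_finsuppAntidiag]
    refine ⟨?_, Finset.subset_univ _⟩
    rw [Fintype.sum_option]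
    show E - ∑ i, γ i + ∑ i, γ i = E
    omega
  · unfold ex
    ext i
    rfl

theorem eq_zero_of {F : Type} [Field F] {k E : ℕ} (R : MvPolynomial (Fin k) F)
    (hR : R.totalDegree ≤ E) (h : ∀ β ∈ J k E, R.coeff (ex β) = 0) : R = 0 := by
  ext γ
  rw [coeff_zero]
  by_cases hγ : ∑ i, γ i ≤ E
  · obtain ⟨β, hβ, rfl⟩ := J_surj γ hγ
    exact h β hβ
  · refine coeff_eq_zero_of_totalDegree_lt ?_
    have e : ∑ i ∈ γ.support, γ i = ∑ i, γ i :=
      Finset.sum_subset (Finset.subset_univ _) fun i _ hi => by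
        rwa [Finsupp.notMem_support_iff] at hi
    rw [e]
    omega

/-- parametrisation of the plane `a + span b` -/
noncomputable def par {F : Type} [Field F] {n k : ℕ} (a : Fin n → F) (b : Fin k → Fin n → F)
    (i : Fin n) : MvPolynomial (Fin k) F := C (a i) + ∑ j, C (b j i) * X j

theorem par_deg {F : Type} [Field F] {n k : ℕ} (a : Fin n → F) (b : Fin k → Fin n → F)
    (i : Fin n) : (par a b i).totalDegree ≤ 1 := by
  unfold par
  refine (totalDegree_add _ _).trans (max_le ?_ ?_)
  · rw [totalDegree_C]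
    exact Nat.zero_le _
  · refine totalDegree_finsetSum_le fun j _ => ?_
    refine (totalDegree_mul _ _).trans ?_
    rw [totalDegree_C, zero_add]
    exact (totalDegree_X j).le

theorem par_eval {F : Type} [Field F] {n k : ℕ} (a : Fin n → F) (b : Fin k → Fin n → F)
    (w : Fin k → F) : (fun i => eval w (par a b i)) = a + ∑ j, w j • b j := by
  funext i
  unfold par
  rw [map_add, eval_C, map_sum, Pi.add_apply, Finset.sum_apply]
  congr 1
  refine Finset.sum_congr rfl fun j _ => ?_
  rw [map_mul, eval_C, eval_X, Pi.smul_apply, smul_eq_mul, mul_comm]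

/-- CP -/
theorem cp : S_CP := by
  intro F _ _ n k E ι _ A hA P hP hcard
  -- bases
  have hb : ∀ p : P, ∃ b : Fin k → Fin n → F, ∀ x : Fin n → F, x - p.1.1 ∈ p.1.2 →
      ∃ w : Fin k → F, x = p.1.1 + ∑ j, w j • b j := by
    intro p
    have hfin := hP p.1 p.2
    let B := Module.finBasisOfFinrankEq F p.1.2 hfin
    refine ⟨fun j => (B j : Fin n → F), fun x hx => ?_⟩
    refine ⟨fun j => B.repr ⟨x - p.1.1, hx⟩ j, ?_⟩
    have h1 := B.sum_repr ⟨x - p.1.1, hx⟩
    have h2 := congrArg (fun v : p.1.2 => (v : Fin n → F)) h1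
    simp only [Submodule.coe_sum, Submodule.coe_smul] at h2
    rw [h2]
    abel
  choose b hb using hb
  let M : Matrix (P × J k E) ι F := fun q s => (bind₁ (par q.1.1.1 (b q.1)) (A s)).coeff (ex q.2.1)
  have hker : LinearMap.ker M.mulVecLin ≠ ⊥ := by
    refine LinearMap.ker_ne_bot_of_finrank_lt ?_
    rw [Module.finrank_fintype_fun_eq_card, Module.finrank_fintype_fun_eq_card,
      Fintype.card_prod, Fintype.card_coe, Fintype.card_coe, J_card]
    exact hcard
  obtain ⟨c, hc, hc0⟩ := (Submodule.ne_bot_iff _).1 hker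
  refine ⟨c, hc0, fun p hp x hx => ?_⟩
  have hzero : bind₁ (par p.1 (b ⟨p, hp⟩)) (lc A c) = 0 := by
    refine eq_zero_of (E := E) _ ((td_bind _ (par_deg _ _) _).trans ?_) fun β hβ => ?_
    · unfold lc
      refine totalDegree_finsetSum_le fun s _ => ?_
      refine (totalDegree_mul _ _).trans ?_
      rw [totalDegree_C, zero_add]
      exact hA s
    · have h1 : M.mulVecLin c = 0 := hc
      have h2 := congrFun h1 (⟨p, hp⟩, ⟨β, hβ⟩)
      rw [Matrix.mulVecLin_apply] at h2
      have h3 : ∑ s, (bind₁ (par p.1 (b ⟨p, hp⟩)) (A s)).coeff (ex β) * c s = 0 := h2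
      unfold lc
      rw [map_sum, coeff_sum, ← h3]
      refine Finset.sum_congr rfl fun s _ => ?_
      rw [map_mul, bind₁_C_right, coeff_C_mul, mul_comm]
  obtain ⟨w, hw⟩ := hb ⟨p, hp⟩ x hx
  have h4 := eval_bind (par p.1 (b ⟨p, hp⟩)) w (lc A c)
  rw [hzero, map_zero, par_eval] at h4
  rw [hw]
  exact h4.symm

end Pool.Agent.W924.KP
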